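import Mathlib
import Pool.Agent.Lib.MP_c37615_al.Mg.G011

/-!
MP_c37615_al (S02984), part GX: the root elements lie in G.
-/

set_option autoImplicit false
set_option linter.all false

open Matrix

namespace C37.PGX

theorem re_InN (r : Rt) (s : ℝ) : InN (re r s) := by
  constructor
  · intro u v
    cases r <;> simp [re, BN, Matrix.mulVec, dotProduct, Fin.sum_univ_succ] <;> ring
  · intro u v
    ext i
    cases r <;> fin_cases i <;> simp [re, crossN, Matrix.mulVec, dotProduct, Fin.sum_univ_succ] <;> ring

theorem re_zero (r : Rt) : re r 0 = 1 := by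
  ext i j
  cases r <;> fin_cases i <;> fin_cases j <;> simp [re]

theorem re_add (r : Rt) (s t : ℝ) : re r (s + t) = re r s * re r t := by
  ext i j
  cases r <;> fin_cases i <;> fin_cases j <;> simp [re, Matrix.mul_apply, Fin.sum_univ_succ] <;> ring

end C37.PGX
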