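import Mathlib
import Pool.Agent.Lib.MP_c37615_al.Mg.G011
import Pool.Agent.Lib.MP_c37615_al.GX.B02

/-!
MP_c37615_al (S02984), part GX, task B03: the homomorphism `iN : SL_3 → G`.
-/

set_option autoImplicit false
set_option linter.all false

open Matrix

namespace C37.PGX

private theorem B03_cofT (A : Matrix (Fin 3) (Fin 3) ℝ) (hA : A.det = 1) : (cof A)ᵀ * A = 1 := by
  rw [Matrix.det_fin_three] at hA
  ext i j
  fin_cases i <;> fin_cases j <;>
    simp [cof, Matrix.mul_apply, Fin.sum_univ_succ] <;>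
    first
    | linear_combination hA
    | ring

/-- for `det A = 1` the cofactor matrix is the inverse transpose:
check `(cof A)ᵀ * A = A.det • 1` entrywise (`Matrix.det_fin_three`, `ring`), then `Matrix.inv_eq_left_inv`. -/
theorem cof_eq (A : Matrix (Fin 3) (Fin 3) ℝ) (hA : A.det = 1) : cof A = (A⁻¹)ᵀ := by
  rw [Matrix.inv_eq_left_inv (B03_cofT A hA), Matrix.transpose_transpose]

private theorem B03_vec (A : Matrix (Fin 3) (Fin 3) ℝ) (u : V) : iN A *ᵥ u =
    ![cof A 2 2 * u 0 + cof A 2 1 * u 4 + cof A 2 0 * u 5,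
      A 0 0 * u 1 + A 0 1 * u 2 + A 0 2 * u 6,
      A 1 0 * u 1 + A 1 1 * u 2 + A 1 2 * u 6,
      u 3,
      cof A 1 2 * u 0 + cof A 1 1 * u 4 + cof A 1 0 * u 5,
      cof A 0 2 * u 0 + cof A 0 1 * u 4 + cof A 0 0 * u 5,
      A 2 0 * u 1 + A 2 1 * u 2 + A 2 2 * u 6] := by
  ext i
  fin_cases i <;> simp [iN, Matrix.mulVec, dotProduct, Fin.sum_univ_succ] <;> ring

/-- Proof: `BN (iN A u) (iN A v)` uses `(cof A)ᵀ * A = det A • 1`; for the cross product: the components x × x → y (0,4,5) are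
identities between 2x2 minors (ring), the components y × y → x (1,2,6) use `cof (cof A) = det A • A` with det A = 1, component 3 is like BN.
Direct: expand everything (`simp [iN, BN, crossN, cof, mulVec, dotProduct, Fin.sum_univ_succ]`), write `hA` as
`Matrix.det_fin_three` and finish by `linear_combination (coefficient) * hA` in each component. -/
theorem iN_InN (A : Matrix (Fin 3) (Fin 3) ℝ) (hA : A.det = 1) : InN (iN A) := by
  rw [Matrix.det_fin_three] at hA
  constructor
  · intro u v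
    rw [B03_vec, B03_vec]
    simp [BN, cof]
    linear_combination ((u 0 * v 6 + u 6 * v 0 + u 1 * v 5 + u 5 * v 1 + u 2 * v 4 + u 4 * v 2)) * hA
  · intro u v
    rw [B03_vec, B03_vec, B03_vec]
    ext i
    fin_cases i
    · simp [crossN, cof]; ring
    · simp [crossN, cof]
      linear_combination (-(A 0 0 * (u 4 * v 0 - u 0 * v 4) + A 0 1 * (u 0 * v 5 - u 5 * v 0) + A 0 2 * (u 5 * v 4 - u 4 * v 5))) * hA
    · simp [crossN, cof]
      linear_combination (-(A 1 0 * (u 4 * v 0 - u 0 * v 4) + A 1 1 * (u 0 * v 5 - u 5 * v 0) + A 1 2 * (u 5 * v 4 - u 4 * v 5))) * hA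
    · simp [crossN, cof]
      linear_combination (((u 1 * v 5 - u 5 * v 1) + (u 2 * v 4 - u 4 * v 2) + (u 6 * v 0 - u 0 * v 6))) * hA
    · simp [crossN, cof]; ring
    · simp [crossN, cof]; ring
    · simp [crossN, cof]
      linear_combination (-(A 2 0 * (u 4 * v 0 - u 0 * v 4) + A 2 1 * (u 0 * v 5 - u 5 * v 0) + A 2 2 * (u 5 * v 4 - u 4 * v 5))) * hA

/-- entrywise `ring` (cofactor matrices are multiplicative) -/
theorem iN_mul (A A' : Matrix (Fin 3) (Fin 3) ℝ) : iN (A * A') = iN A * iN A' := by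
  apply Matrix.ext_of_mulVec_single
  intro k
  rw [← Matrix.mulVec_mulVec, B03_vec, B03_vec, B03_vec]
  ext i
  fin_cases i <;> fin_cases k <;>
    simp [cof, Matrix.mul_apply, Fin.sum_univ_succ] <;> ring

theorem iN_one : iN 1 = 1 := by
  ext i j
  fin_cases i <;> fin_cases j <;> simp [iN, cof]

/-- the torus -/
theorem DN_eq_iN (t1 t2 : ℝ) (h1 : t1 ≠ 0) (h2 : t2 ≠ 0) :
    DN t1 t2 = iN (Matrix.diagonal ![t1, t2, (t1 * t2)⁻¹]) := by
  ext i j
  fin_cases i <;> fin_cases j <;> simp [DN, iN, cof] <;> field_simp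

theorem DN_InN (t1 t2 : ℝ) (h1 : t1 ≠ 0) (h2 : t2 ≠ 0) : InN (DN t1 t2) := by
  rw [DN_eq_iN t1 t2 h1 h2]
  apply iN_InN
  rw [Matrix.det_diagonal, Fin.prod_univ_three]
  simp
  field_simp

theorem DN_mul (t1 t2 s1 s2 : ℝ) : DN t1 t2 * DN s1 s2 = DN (t1 * s1) (t2 * s2) := by
  unfold DN
  rw [Matrix.diagonal_mul_diagonal]
  congr 1
  ext i
  fin_cases i <;> simp <;> ring

/-- long root elements are images of transvections: `re Lij s = iN (1 - s E_ij)` -/
theorem re_L12 (s : ℝ) : re .L12 s = iN (Matrix.transvection 0 1 (-s)) := by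
  ext i j
  fin_cases i <;> fin_cases j <;> simp [re, iN, cof, Matrix.transvection, Matrix.single]
theorem re_L21 (s : ℝ) : re .L21 s = iN (Matrix.transvection 1 0 (-s)) := by
  ext i j
  fin_cases i <;> fin_cases j <;> simp [re, iN, cof, Matrix.transvection, Matrix.single]
theorem re_L13 (s : ℝ) : re .L13 s = iN (Matrix.transvection 0 2 (-s)) := by
  ext i j
  fin_cases i <;> fin_cases j <;> simp [re, iN, cof, Matrix.transvection, Matrix.single]
theorem re_L31 (s : ℝ) : re .L31 s = iN (Matrix.transvection 2 0 (-s)) := by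
  ext i j
  fin_cases i <;> fin_cases j <;> simp [re, iN, cof, Matrix.transvection, Matrix.single]
theorem re_L23 (s : ℝ) : re .L23 s = iN (Matrix.transvection 1 2 (-s)) := by
  ext i j
  fin_cases i <;> fin_cases j <;> simp [re, iN, cof, Matrix.transvection, Matrix.single]
theorem re_L32 (s : ℝ) : re .L32 s = iN (Matrix.transvection 2 1 (-s)) := by
  ext i j
  fin_cases i <;> fin_cases j <;> simp [re, iN, cof, Matrix.transvection, Matrix.single]

end C37.PGX
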