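import Mathlib
import Pool.Agent.Lib.MP_c37615_al.Defs2

/-!
MP_c37615_al (S02984): the shared definitions of split G_2 as a subgroup of GL_7(R) are in Defs2.lean.
-/
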